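import Pool.Agent.P8H24.PR.Stm

/-!
# Project PR: VEC (vector functionals of the quasi-regular representation on the reduced algebra)
-/

set_option autoImplicit false

open Finset Filter Topology

namespace Pool.Agent.P8H76.PR

open Pool.Agent.P8H24.PR
open Pool.Agent.W726.NS (RedAlg)
open scoped InnerProductSpace ComplexOrder

section bound

variable {A : Type} [CStarAlgebra A]

/-- vector functionals have norm at most one -/
lemma vec_bound (τ : A →L[ℂ] ℂ) (hpos : ∀ a : A, ∃ r : ℝ, 0 ≤ r ∧ τ (star a * a) = r) (x : A)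
    (hx : τ (star x * x) = 1) (a : A) : ‖τ (star x * (a * x))‖ ≤ ‖a‖ := by
  let _ := CStarAlgebra.spectralOrder A
  have _ := CStarAlgebra.spectralOrderedRing A
  let f : A →ₚ[ℂ] ℂ := PositiveLinearMap.mk₀ (τ : A →ₗ[ℂ] ℂ) (by
    intro b hb
    obtain ⟨c, rfl⟩ := CStarAlgebra.nonneg_iff_eq_star_mul_self.1 hb
    obtain ⟨r, hr, h⟩ := hpos c
    show 0 ≤ τ (star c * c)
    rw [h]
    exact_mod_cast hr)
  let ξ : f.PreGNS := f.toPreGNS x
  have hξ : ‖ξ‖ = 1 := by
    have h1 : (‖ξ‖ : ℂ) ^ 2 = τ (star x * x) := f.preGNS_norm_sq ξ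
    rw [hx] at h1
    have h2 : ‖ξ‖ ^ 2 = 1 := by exact_mod_cast h1
    exact (pow_eq_one_iff_of_nonneg (norm_nonneg _) (by norm_num)).1 h2
  have h2 : ⟪ξ, f.leftMulMapPreGNS a ξ⟫_ℂ = τ (star x * (a * x)) := rfl
  have h3 : ‖f.leftMulMapPreGNS a ξ‖ ≤ ‖a‖ * ‖ξ‖ :=
    (f.leftMulMapPreGNS a).le_of_opNorm_le (LinearMap.mkContinuous_norm_le _ (norm_nonneg _) _) ξ
  rw [← h2]
  have h4 := norm_inner_le_norm (𝕜 := ℂ) ξ (f.leftMulMapPreGNS a ξ)
  rw [hξ] at h3 h4
  linarith

lemma exists_vf (τ : A →L[ℂ] ℂ) (hpos : ∀ a : A, ∃ r : ℝ, 0 ≤ r ∧ τ (star a * a) = r) (x : A)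
    (hx : τ (star x * x) = 1) : ∃ ρ : A →L[ℂ] ℂ, ‖ρ‖ ≤ 1 ∧ ∀ a, ρ a = τ (star x * (a * x)) := by
  refine ⟨LinearMap.mkContinuous
    { toFun := fun a => τ (star x * (a * x))
      map_add' := fun a b => by rw [add_mul, mul_add, map_add]
      map_smul' := fun c a => by
        rw [smul_mul_assoc, mul_smul_comm, map_smul]
        rfl } 1 (fun a => by rw [one_mul]; exact vec_bound τ hpos x hx a),
    LinearMap.mkContinuous_norm_le _ zero_le_one _, fun a => rfl⟩

end bound

section trace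

variable {G A : Type} [Group G] [CStarAlgebra A] {u : G → A} {τ : A →L[ℂ] ℂ}

lemma u_one (h : RedAlg u τ) (hm : ∀ g k, u (g * k) = u g * u k) : u 1 = 1 := by
  have h1 : u 1 = u 1 * u 1 := by rw [← hm, one_mul]
  have h2 := Unitary.star_mul_self_of_mem (h.unit 1)
  have h3 : star (u 1) * u 1 = star (u 1) * (u 1 * u 1) := by rw [← h1]
  rw [← mul_assoc, h2, one_mul] at h3
  exact h3.symm

lemma star_u (h : RedAlg u τ) (hm : ∀ g k, u (g * k) = u g * u k) (g : G) :
    star (u g) = u g⁻¹ := by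
  have h1 : u g * u g⁻¹ = 1 := by rw [← hm, mul_inv_cancel, u_one h hm]
  have h2 := Unitary.star_mul_self_of_mem (h.unit g)
  calc star (u g) = star (u g) * (u g * u g⁻¹) := by rw [h1, mul_one]
    _ = u g⁻¹ := by rw [← mul_assoc, h2, one_mul]

open Classical in
lemma tau_u (h : RedAlg u τ) (hm : ∀ g k, u (g * k) = u g * u k) (g : G) :
    τ (u g) = if g = 1 then 1 else 0 := by
  split_ifs with hg
  · rw [hg, u_one h hm, h.one]
  · exact h.zero g hg

lemma pos' (h : RedAlg u τ) (a : A) : ∃ r : ℝ, 0 ≤ r ∧ τ (star a * a) = r := by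
  by_cases ha : a = 0
  · exact ⟨0, le_rfl, by rw [ha, mul_zero, map_zero]; simp⟩
  · obtain ⟨r, hr, h1⟩ := h.pos a ha
    exact ⟨r, hr.le, h1⟩

open Classical in
lemma count (F : Finset G) (y : G) :
    ∑ a ∈ F, ∑ b ∈ F, (if a⁻¹ * (y * b) = 1 then (1 : ℂ) else 0) =
      ((F.filter fun k => y * k ∈ F).card : ℂ) := by
  rw [Finset.sum_comm, Finset.card_filter]
  push_cast
  refine Finset.sum_congr rfl fun b _ => ?_
  have h1 : ∀ a, (a⁻¹ * (y * b) = 1) ↔ (a = y * b) := fun a => by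
    rw [inv_mul_eq_one]
  simp only [h1]
  rw [Finset.sum_ite_eq' F (y * b) (fun _ => (1 : ℂ))]

open Classical in
lemma calc_tau (h : RedAlg u τ) (hm : ∀ g k, u (g * k) = u g * u k) {ι : Type} (I : Finset ι)
    (W : ι → G) (C : ι → ℂ) (F : Finset G) (g : G) :
    τ (star (∑ i ∈ I, ∑ a ∈ F, C i • u (W i * a)) *
        (u g * ∑ j ∈ I, ∑ b ∈ F, C j • u (W j * b))) =
      ∑ i ∈ I, ∑ j ∈ I, star (C i) * C j *
        ((F.filter fun k => (W i)⁻¹ * (g * W j) * k ∈ F).card : ℂ) := by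
  rw [star_sum, Finset.sum_mul, map_sum]
  refine Finset.sum_congr rfl fun i _ => ?_
  rw [star_sum, Finset.sum_mul, map_sum]
  have key : ∀ a ∈ F, τ (star (C i • u (W i * a)) * (u g * ∑ j ∈ I, ∑ b ∈ F, C j • u (W j * b))) =
      ∑ j ∈ I, ∑ b ∈ F, star (C i) * C j *
        (if a⁻¹ * ((W i)⁻¹ * (g * W j) * b) = 1 then (1 : ℂ) else 0) := by
    intro a _
    rw [star_smul, star_u h hm, smul_mul_assoc, map_smul, Finset.mul_sum, Finset.mul_sum, map_sum,
      smul_eq_mul, Finset.mul_sum]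
    refine Finset.sum_congr rfl fun j _ => ?_
    rw [Finset.mul_sum, Finset.mul_sum, map_sum, Finset.mul_sum]
    refine Finset.sum_congr rfl fun b _ => ?_
    have e1 : (W i * a)⁻¹ * (g * (W j * b)) = a⁻¹ * ((W i)⁻¹ * (g * W j) * b) := by group
    rw [mul_smul_comm, mul_smul_comm, map_smul, ← hm, ← hm, e1, tau_u h hm, smul_eq_mul]
    ring
  rw [Finset.sum_congr rfl key, Finset.sum_comm]
  refine Finset.sum_congr rfl fun j _ => ?_
  rw [← count, Finset.mul_sum]
  refine Finset.sum_congr rfl fun a _ => ?_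
  rw [Finset.mul_sum]

open Classical in
lemma exists_rho (h : RedAlg u τ) (hm : ∀ g k, u (g * k) = u g * u k) (L : Subgroup G) {ι : Type}
    (I : Finset ι) (hI : I.Nonempty) (W : ι → G) (C : ι → ℂ) (hC : ∀ i ∈ I, ‖C i‖ = 1)
    (hW : ∀ i ∈ I, ∀ j ∈ I, (W i)⁻¹ * W j ∈ L → i = j) (F : Finset G) (hF : F.Nonempty)
    (hFL : ∀ x ∈ F, x ∈ L) : ∃ ρ : A →L[ℂ] ℂ, ‖ρ‖ ≤ 1 ∧ ∀ g, ρ (u g) =
      (I.card : ℂ)⁻¹ * ∑ i ∈ I, ∑ j ∈ I, star (C i) * C j *
        (((F.filter fun k => (W i)⁻¹ * (g * W j) * k ∈ F).card : ℂ) / F.card) := by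
  have hI0 : (0 : ℝ) < I.card := by exact_mod_cast hI.card_pos
  have hF0 : (0 : ℝ) < F.card := by exact_mod_cast hF.card_pos
  set κ : ℝ := (Real.sqrt (I.card * F.card))⁻¹ with hκ
  have hκ2 : (κ : ℂ) * (κ : ℂ) = (I.card : ℂ)⁻¹ * (F.card : ℂ)⁻¹ := by
    have h1 : κ * κ = (I.card : ℝ)⁻¹ * (F.card : ℝ)⁻¹ := by
      rw [hκ, ← mul_inv, Real.mul_self_sqrt (by positivity), mul_inv]
    have h2 := congrArg (fun t : ℝ => (t : ℂ)) h1
    push_cast at h2
    exact h2
  set X : A := ∑ i ∈ I, ∑ a ∈ F, C i • u (W i * a) with hX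
  have hg : ∀ g, τ (star ((κ : ℂ) • X) * (u g * ((κ : ℂ) • X))) =
      (I.card : ℂ)⁻¹ * ∑ i ∈ I, ∑ j ∈ I, star (C i) * C j *
        (((F.filter fun k => (W i)⁻¹ * (g * W j) * k ∈ F).card : ℂ) / F.card) := by
    intro g
    have e1 : star ((κ : ℂ) • X) = (κ : ℂ) • star X := by
      rw [star_smul]
      congr 1
      exact Complex.conj_ofReal κ
    rw [e1, mul_smul_comm, mul_smul_comm, smul_mul_assoc, smul_smul, map_smul, hX,
      calc_tau h hm, hκ2, smul_eq_mul, mul_assoc, Finset.mul_sum]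
    congr 1
    refine Finset.sum_congr rfl fun i _ => ?_
    rw [Finset.mul_sum]
    refine Finset.sum_congr rfl fun j _ => ?_
    ring
  have h1 : τ (star ((κ : ℂ) • X) * ((κ : ℂ) • X)) = 1 := by
    have h2 := hg 1
    rw [u_one h hm, one_mul] at h2
    rw [h2]
    have h3 : ∀ i ∈ I, ∑ j ∈ I, star (C i) * C j *
        (((F.filter fun k => (W i)⁻¹ * (1 * W j) * k ∈ F).card : ℂ) / F.card) = 1 := by
      intro i hi
      rw [Finset.sum_eq_single i]
      · rw [one_mul, inv_mul_cancel]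
        have h4 : (F.filter fun k => 1 * k ∈ F) = F := by
          apply Finset.filter_true_of_mem
          intro k hk
          rwa [one_mul]
        rw [h4, div_self (by exact_mod_cast hF0.ne'), mul_one]
        have h5 : star (C i) * C i = ((‖C i‖ ^ 2 : ℝ) : ℂ) := by
          have := Complex.conj_mul' (C i)
          push_cast
          exact this
        rw [h5, hC i hi]
        norm_num
      · intro j hj hji
        have h4 : (F.filter fun k => (W i)⁻¹ * (1 * W j) * k ∈ F) = ∅ := by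
          apply Finset.filter_false_of_mem
          intro k hk hk'
          apply hji
          refine (hW i hi j hj ?_).symm
          rw [one_mul] at hk'
          have h5 := L.mul_mem (hFL _ hk') (L.inv_mem (hFL _ hk))
          rwa [mul_inv_cancel_right] at h5
        rw [h4]
        simp
      · intro h4
        exact absurd hi h4
    rw [Finset.sum_congr rfl h3]
    simp only [Finset.sum_const, nsmul_eq_mul, mul_one]
    exact inv_mul_cancel₀ (by exact_mod_cast hI0.ne')
  obtain ⟨ρ, hρ, h2⟩ := exists_vf τ (pos' h) ((κ : ℂ) • X) h1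
  exact ⟨ρ, hρ, fun g => by rw [h2, hg]⟩

end trace

theorem vec : S_VEC := by
  classical
  intro G A _ _ u τ h hm L hL ι I hI W C hC hW
  -- the Folner sets
  have hex : ∀ p : Finset G × ℕ, ∃ F : Finset G, F.Nonempty ∧ (∀ x ∈ F, x ∈ L) ∧
      ∀ y ∈ p.1, y ∈ L → (1 - 1 / ((p.2 : ℝ) + 1)) * (F.card : ℝ) ≤
        ((F.filter fun k => y * k ∈ F).card : ℝ) := by
    intro p
    obtain ⟨F, hFf, hFn, hFL, hFo⟩ := hL (p.1.filter fun x => x ∈ L)
      (fun x hx => (Finset.mem_filter.1 hx).2) (1 / ((p.2 : ℝ) + 1)) (by positivity)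
    refine ⟨hFf.toFinset, by rwa [Set.Finite.toFinset_nonempty], fun x hx => hFL (by simpa using hx),
      fun y hy hyL => ?_⟩
    have h1 := hFo y (Finset.mem_filter.2 ⟨hy, hyL⟩)
    have h2 : F.ncard = hFf.toFinset.card := Set.ncard_eq_toFinset_card F hFf
    have h3 : ({k ∈ F | y * k ∈ F} : Set G).ncard =
        (hFf.toFinset.filter fun k => y * k ∈ hFf.toFinset).card := by
      rw [← Set.ncard_coe_finset]
      congr 1
      ext k
      simp
    rw [h2, h3] at h1
    exact h1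
  choose F hFn hFL hFo using hex
  have hrho := fun p => exists_rho h hm L I hI W C hC hW (F p) (hFn p) (hFL p)
  choose ρ hρ hρu using hrho
  -- the limits
  have hlim : ∀ y : G, Tendsto (fun p : Finset G × ℕ =>
      ((((F p).filter fun k => y * k ∈ F p).card : ℂ) / (F p).card)) atTop
      (𝓝 (Set.indicator (L : Set G) (fun _ => (1 : ℂ)) y)) := by
    intro y
    by_cases hy : y ∈ L
    · rw [Set.indicator_of_mem (by exact hy)]
      have h1 : Tendsto (fun p : Finset G × ℕ =>
          ((((F p).filter fun k => y * k ∈ F p).card : ℝ) / (F p).card)) atTop (𝓝 1) := by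
        have h2 : Tendsto (fun p : Finset G × ℕ => 1 - 1 / ((p.2 : ℝ) + 1)) atTop (𝓝 1) := by
          have h3 : Tendsto (fun p : Finset G × ℕ => p.2) atTop atTop := by
            rw [← prod_atTop_atTop_eq]
            exact tendsto_snd
          have h4 := (tendsto_one_div_add_atTop_nhds_zero_nat (𝕜 := ℝ)).comp h3
          have h5 := h4.const_sub 1
          rw [sub_zero] at h5
          exact h5
        refine tendsto_of_tendsto_of_tendsto_of_le_of_le' h2 tendsto_const_nhds ?_ ?_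
        · filter_upwards [eventually_ge_atTop (({y} : Finset G), 0)] with p hp
          have hyp : y ∈ p.1 := hp.1 (Finset.mem_singleton_self y)
          have hc : (0 : ℝ) < (F p).card := by exact_mod_cast (hFn p).card_pos
          rw [le_div_iff₀ hc]
          exact hFo p y hyp hy
        · filter_upwards with p
          have hc : (0 : ℝ) < (F p).card := by exact_mod_cast (hFn p).card_pos
          rw [div_le_one hc]
          exact_mod_cast Finset.card_filter_le _ _
      have h2 := (Complex.continuous_ofReal.tendsto (1 : ℝ)).comp h1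
      rw [Complex.ofReal_one] at h2
      refine h2.congr fun p => ?_
      simp
    · rw [Set.indicator_of_notMem (by exact hy)]
      refine tendsto_const_nhds.congr fun p => ?_
      have h4 : ((F p).filter fun k => y * k ∈ F p) = ∅ := by
        apply Finset.filter_false_of_mem
        intro k hk hk'
        apply hy
        have h5 := L.mul_mem (hFL p _ hk') (L.inv_mem (hFL p _ hk))
        rwa [mul_inv_cancel_right] at h5
      rw [h4]
      simp
  have hlim2 : ∀ g : G, Tendsto (fun p : Finset G × ℕ => ρ p (u g)) atTop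
      (𝓝 ((I.card : ℂ)⁻¹ * ∑ i ∈ I, ∑ j ∈ I, star (C i) * C j *
        Set.indicator (L : Set G) (fun _ => (1 : ℂ)) ((W i)⁻¹ * (g * W j)))) := by
    intro g
    simp only [hρu]
    refine Tendsto.const_mul _ (tendsto_finsetSum _ fun i _ => tendsto_finsetSum _ fun j _ => ?_)
    exact Tendsto.const_mul _ (hlim _)
  -- compactness
  let 𝒰 : Ultrafilter (Finset G × ℕ) := Ultrafilter.of atTop
  have h𝒰 : (𝒰 : Filter (Finset G × ℕ)) ≤ atTop := Ultrafilter.of_le atTop
  have hcomp := WeakDual.isCompact_closedBall (0 : StrongDual ℂ A) 1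
  obtain ⟨ρ', hρ', hlimρ⟩ := hcomp.ultrafilter_le_nhds (𝒰.map fun p => StrongDual.toWeakDual (ρ p))
    (by
      rw [Filter.le_principal_iff, Ultrafilter.coe_map, Filter.mem_map]
      refine Filter.mem_of_superset Filter.univ_mem ?_
      intro p _
      show ρ p ∈ Metric.closedBall (0 : StrongDual ℂ A) 1
      rw [mem_closedBall_zero_iff]
      exact hρ p)
  refine ⟨WeakDual.toStrongDual ρ', ?_, fun g => ?_⟩
  · have h1 : WeakDual.toStrongDual ρ' ∈ Metric.closedBall (0 : StrongDual ℂ A) 1 := hρ'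
    rwa [mem_closedBall_zero_iff] at h1
  · have h1 : Tendsto (fun p => StrongDual.toWeakDual (ρ p)) (𝒰 : Filter (Finset G × ℕ)) (𝓝 ρ') :=
      hlimρ
    have h2 := ((WeakDual.eval_continuous (𝕜 := ℂ) (u g)).tendsto ρ').comp h1
    have h3 := (hlim2 g).mono_left h𝒰
    exact tendsto_nhds_unique h2 h3

end Pool.Agent.P8H76.PR
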